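import Pool.Agent.N212.SG.Main

/-!
# Project QS (helper991): fundamental groups of special quasi-projective varieties.
Statements of the parts.
-/

set_option autoImplicit false

namespace Pool.Agent.N991.QS

open Pool.Agent.N212.SG

/-- The group `G` has a nilpotent subgroup of finite index. -/
def VirtNilpotent (G : Type) [Group G] : Prop :=
  ∃ A : Subgroup G, A.FiniteIndex ∧ Group.IsNilpotent A

/-- The images of all finite-dimensional complex representations of `G` are virtually
nilpotent. -/
def LinearImagesN (G : Type) [Group G] : Prop :=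
  ∀ (n : ℕ) (ρ : G →* GL (Fin n) ℂ), VirtNilpotent ρ.range

/-- What is used about the fundamental group `G` of a special or h-special smooth quasi-projective
variety `X`: it is finitely generated, and for each subgroup `H` of finite index, that is, for each
connected finite étale covering `Y → X` (which is again special or h-special):
* all complex linear representations of `H` have virtually nilpotent images
  (Cadorel, Deng, Yamanoi);
* the kernel of the map from `H` to its abelianization modulo torsion, the fundamental group of the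
  quasi-Albanese variety of `Y`, is finitely generated (the quasi-Albanese map is `π₁`-exact: the
  kernel is the image of the fundamental group of a general fibre);
* the first Betti number of `H` is bounded (by `2 dim X`, as the quasi-Albanese map of `Y` is
  dominant). -/
structure IsQuasiSpecialGroup (G : Type) [Group G] : Prop where
  fg : Group.FG G
  linear : ∀ H : Subgroup G, H.FiniteIndex → LinearImagesN H
  albanese : ∀ H : Subgroup G, H.FiniteIndex → (albKer H).FG
  betti : ∃ B : ℕ, ∀ H : Subgroup G, H.FiniteIndex → Module.finrank ℂ (H1 H) ≤ B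

/-! ### The leaves -/

/-- TAU. A subadditive function on a nilpotent group which grows by one under multiplication by
the central element `t` gives a homomorphism which is `1` at `t`. -/
def S_TAU : Prop :=
  ∀ (Γ : Type) [Group Γ] (t : Γ) (d : Γ → ℝ), Group.IsNilpotent Γ → (∀ a, t * a = a * t) →
    (∀ a b, d (a * b) ≤ d a + d b) → (∀ a, d (t * a) = d a + 1) →
    ∃ τ : Additive Γ →+ ℝ, τ (Additive.ofMul t) = 1

/-- FGZ. `D` is finitely generated, `D / P` is generated by the image of `t`, which is central in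
the nilpotent group `H / P`, and no homomorphism from `H` to `ℝ` is nonzero at `t`. Then `P` is
finitely generated. -/
def S_FGZ : Prop :=
  ∀ (H : Type) [Group H] (D P : Subgroup H) [P.Normal] (t : H), P ≤ D → D.FG → t ∈ D →
    (∀ d ∈ D, ∃ n : ℤ, d * t ^ n ∈ P) → (∀ h : H, h * t * h⁻¹ * t⁻¹ ∈ P) →
    (∃ c : ℕ, (⊤ : Subgroup H).lowerCentralSeries c ≤ P) →
    (∀ τ : Additive H →+ ℝ, τ (Additive.ofMul t) = 0) → P.FG

/-- EIGN. A line which is stable under a subgroup of finite index, for a group which acts through a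
nilpotent group. -/
def S_EIGN : Prop :=
  ∀ (H : Type) [Group H] (V : Type) [AddCommGroup V] [Module ℂ V] [FiniteDimensional ℂ V]
    [Nontrivial V] (ρ : H →* (V →ₗ[ℂ] V)) (c : ℕ), (∀ x ∈ (⊤ : Subgroup H).lowerCentralSeries c, ρ x = 1) →
    ∃ v : V, v ≠ 0 ∧ ∃ (A : Subgroup H) (l : A →* ℂ), A.FiniteIndex ∧
      (∀ a : A, ρ a v = l a • v) ∧ ∀ h : H, (∃ z : ℂ, ρ h v = z • v) → h ∈ A

/-- COC. An equivariant homomorphism on `K` extends to a cocycle, if `H / K` is nilpotent and the
character is not trivial. -/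
def S_COC : Prop :=
  ∀ (H : Type) [Group H] (K : Subgroup H) [K.Normal], (∃ c : ℕ, (⊤ : Subgroup H).lowerCentralSeries c ≤ K) →
    ∀ (χ : H1 K) (l : H →* ℂ), (∀ k ∈ K, l k = 1) → (∃ g, l g ≠ 1) →
      (∀ (g : H) (k : K), χ (Additive.ofMul ⟨g * k * g⁻¹, ‹K.Normal›.conj_mem k k.2 g⟩) =
        l g * χ (Additive.ofMul k)) →
      ∃ c : H → ℂ, (∀ g h, c (g * h) = c g + l g * c h) ∧ ∀ k : K, c k = χ (Additive.ofMul k)

/-- AFF. The character of an affine representation has finite order. -/
def S_AFF : Prop :=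
  ∀ (H : Type) [Group H], LinearImagesN H → ∀ (l : H →* ℂ) (c : H → ℂ) (k : H),
    (∀ g h, c (g * h) = c g + l g * c h) → l k = 1 → c k ≠ 0 →
    ∃ n : ℕ, n ≠ 0 ∧ ∀ g, l g ^ n = 1

/-- FINN. Finite extensions. -/
def S_FINN : Prop :=
  ∀ (H : Type) [Group H] (D D' : Subgroup H), D' ≤ D → (D'.subgroupOf D).FiniteIndex →
    (∀ h : H, ∀ d ∈ D, h * d * h⁻¹ ∈ D) → (∀ h : H, ∀ d ∈ D', h * d * h⁻¹ ∈ D') →
    (∃ c : ℕ, (⊤ : Subgroup H).lowerCentralSeries c ≤ D) →
    ∃ A : Subgroup H, A.FiniteIndex ∧ D' ≤ A ∧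
      ∃ c : ℕ, A.lowerCentralSeries c ≤ D'

/-- FAB. A finitely generated abelian group without homomorphisms to `ℂ` is finite. -/
def S_FAB : Prop :=
  ∀ (K : Type) [Group K] (S : Subgroup K), Group.FG K → (∀ a b : K, a * b * a⁻¹ * b⁻¹ ∈ S) →
    (∀ f : H1 K, (∀ s ∈ S, f (Additive.ofMul s) = 0) → f = 0) → S.FiniteIndex

/-- INTG. An integral homomorphism from a complex one. -/
def S_INTG : Prop :=
  ∀ (K : Type) [Group K] (χ : H1 K), Group.FG K → χ ≠ 0 →
    ∃ χ' : Additive K →+ ℤ, χ' ≠ 0 ∧ ∀ x y, χ x = χ y → χ' x = χ' y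

/-- The homomorphisms to `ℂ` which vanish on `S`. -/
def ann (K : Type) [Group K] (S : Subgroup K) : Submodule ℂ (H1 K) where
  carrier := {f | ∀ s ∈ S, f (Additive.ofMul s) = 0}
  zero_mem' := fun s _ => rfl
  add_mem' := fun {f g} hf hg s hs => by
    change f (Additive.ofMul s) + g (Additive.ofMul s) = 0
    rw [hf s hs, hg s hs, add_zero]
  smul_mem' := fun z f hf s hs => by
    change z • f (Additive.ofMul s) = 0
    rw [hf s hs, smul_zero]

/-- RANK. The kernel of a homomorphism to `ℤ` has smaller rank. -/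
def S_RANK : Prop :=
  ∀ (K : Type) [Group K] (S P : Subgroup K) (χ : Additive K →+ ℤ), Group.FG K → S ≤ P →
    (∀ a b : K, a * b * a⁻¹ * b⁻¹ ∈ S) → χ ≠ 0 →
    (∀ x : K, x ∈ P ↔ χ (Additive.ofMul x) = 0) →
    Module.finrank ℂ (ann P (S.subgroupOf P)) < Module.finrank ℂ (ann K S)

/-- NOE. Subgroups of finitely generated nilpotent groups are finitely generated (relative to a
finitely generated subgroup `D`). -/
def S_NOE : Prop :=
  ∀ (H : Type) [Group H] (D N : Subgroup H), Group.FG H → D.FG → D ≤ N →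
    (∀ h : H, ∀ d ∈ D, h * d * h⁻¹ ∈ D) → (∃ c : ℕ, (⊤ : Subgroup H).lowerCentralSeries c ≤ D) → N.FG

end Pool.Agent.N991.QS
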